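import Pool.Agent.H66.P4.Cell
import Pool.Agent.H89.P4.Mono

/-!
# P4: the assembly, with a larger constant
-/

set_option autoImplicit false

namespace Pool.P4

open Finset Real MvPolynomial
open Pool.Agent.H49.Ent Pool.Agent.H32.Dense Pool.STK Pool.STAT Pool.MIC.Frm Pool.MIC7 Pool.FRM
open Pool.GSD
open Pool.BFL (Pb)

/-- **(CELLF)** `CellStmt` where the constant `C` of the picture is at least `F K' C₀` for a given
`F`, and the geometry holds at the constant `C₀`. -/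
def CellFStmt : Prop :=
  ∀ (n K B : ℕ) (lam gam : ℕ → ℝ) (C₁ h : ℝ) (c k : ℕ) (ys : Fin k → ℕ) (gs : Fin c → ℕ)
    (n₀ : Fin c), 1 ≤ n → 1 ≤ B → (∀ l, 1 ≤ l → l ≤ n → lam l = 1) → (∀ l, 0 ≤ gam l) →
    0 < gam n → (∀ l, gr gam n l → gam l < 1 + thd gam n) → 1 ≤ C₁ → 0 < h → h ≤ 1 →
    (∀ a, sl gam n (ys a)) → Function.Injective ys → (∀ l, sl gam n l → ∃ a, ys a = l) →
    (∀ u, gr gam n (gs u)) → StrictMono gs → (∀ l, gr gam n l → ∃ u, gs u = l) →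
    gs n₀ = n → ∀ (CL : ℝ) (F : ℕ → ℝ → ℝ),
    ∃ (K' : ℕ) (C₀ C : ℝ), 1 ≤ C₀ ∧ C₀ ≤ C ∧ F K' C₀ ≤ C ∧ ∀ η : ℝ, 0 < η → ∃ s : ℝ, 0 < s ∧
    ∀ (B' U₀ y₀ : ℕ) (io : ℝ), 1 ≤ B' → 0 < io →
    ∃ U y r r' r'' a i j : ℕ, 1 ≤ U ∧ U₀ ≤ U ∧ y₀ ≤ y ∧ ∀ M₀ : ℕ, ∃ M : ℕ, M₀ ≤ M ∧
      Plc n gam y r r' r'' a M i j ∧
    ∀ e : ℝ, 0 < e → ∃ (κ : ℝ) (z₀ : ℕ), 0 < κ ∧ κ ≤ 1 ∧
    ∀ (J a₀ w₀ z : ℕ) (D : NDat2) (q : D.Ω → ℝ) (ϖ : ℝ), z₀ ≤ z → ϖ ≤ 1 →
      D.Ok2 n K J a₀ w₀ z M lam gam κ C₁ q → D.DMA z M κ q → LLC D n z M CL q →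
      D.TmU J w₀ z κ q → D.NF n z M B gam h C₁ ϖ q →
      ∃ (w : ℕ) (E : D.Ω → Prop) (P : D.Γ × D.Γ → ℕ → PN) (S : D.Ω → ℕ → ℕ → ℝ),
        Pb q (fun ω => ¬ E ω) ≤ e ∧
        Hyp D n K K' J a₀ w₀ z M w i j r r' r'' y (B * U * z) lam gam κ C₁ C q E P S ys gs ∧
        Geo D n K' J w₀ z i j r r' r'' gam C₀ (exp (C₀ * z) / 2 ^ (y * z)) q E P S ∧
        (∀ ω, E ω → 0 < q ω ∧ GoodS D n K' w₀ z M C₀ ω ∧
          FrP D n K' z i j r C₀ (P (bb D i j r ω)) ω) ∧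
        Dep D n J w₀ z M i j r C₀ q E P ∧
        (qh (c := c) (k := k) D J w z i j r (B * U * z) C P S ys gs q).Ok0S n₀ (B * U * z) B'
          (k + 4) (h / (2 * B)) (io * (B * U * z : ℕ)) ∧
        (qh (c := c) (k := k) D J w z i j r (B * U * z) C P S ys gs q).TM (B * U * z) s η

/-- **The assembly of the cell side, with a larger constant.** -/
theorem cellF_of (hG : GeoStmt) (h0 : H0Stmt) (h2 : H2Stmt) (hy : YFStmt) (ht : TFStmt)
    (hn : NFStmt) (hs : HsStmt) (hT : TMStmt) : CellFStmt := by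
  intro n K B lam gam C₁ h c k ys gs n₀ n1 B1 lam1 gam0 gamn ggr C1 hh0 hh1 y1 y2 y3 g1 g2 g3 g4
    CL F
  obtain ⟨K', C₀, hC₀, HG⟩ := hG n K lam gam C₁ n1 C1 lam1 gam0
  obtain ⟨C, hCd⟩ : ∃ C : ℝ, C = max (max C₀ (F K' C₀)) CL := ⟨_, rfl⟩
  have hCC : C₀ ≤ C := by rw [hCd]; exact (le_max_left _ _).trans (le_max_left _ _)
  have hCF : F K' C₀ ≤ C := by rw [hCd]; exact (le_max_right _ _).trans (le_max_left _ _)
  have hCL : CL ≤ C := by rw [hCd]; exact le_max_right _ _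
  have hC : 1 ≤ C := hC₀.trans hCC
  refine ⟨K', C₀, C, hC₀, hCC, hCF, fun η hη => ?_⟩
  obtain ⟨s, hs0, HT⟩ := hT η hη
  refine ⟨s, hs0, fun B' U₀ y₀ io hB' hio => ?_⟩
  obtain ⟨A0, a0, H0⟩ := h0 n K K' c k C₁ C
  obtain ⟨A2, a2, H2⟩ := h2 n K K' c k C₁ C
  obtain ⟨Ay, ay, Hy⟩ := hy n K K' c k C₁ C
  obtain ⟨At, at', Ht⟩ := ht n K K' c k C₁ C
  obtain ⟨As, as, Hs⟩ := hs n K K' c k C₁ C
  obtain ⟨An, an, Hn⟩ := hn n K K' c k B C₁ C B1
  obtain ⟨A, hA⟩ : ∃ A : ℝ, A = A0 + A2 + Ay + At + As + An := ⟨_, rfl⟩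
  have hA0 : 0 ≤ A := by rw [hA]; positivity
  have l0 : A0 ≤ A := by rw [hA]; linarith
  have l2 : A2 ≤ A := by rw [hA]; linarith
  have ly : Ay ≤ A := by rw [hA]; linarith
  have lt : At ≤ A := by rw [hA]; linarith
  have ls : As ≤ A := by rw [hA]; linarith
  have ln : An ≤ A := by rw [hA]; linarith
  have hBr : (1 : ℝ) ≤ B := by exact_mod_cast B1
  have hB0 : (0 : ℝ) < B := by linarith
  have hlog : 0 < Real.log 2 := Real.log_pos (by norm_num)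
  obtain ⟨δ₁, hδ₁⟩ : ∃ δ₁ : ℝ, δ₁ = h / (2 * B) * Real.log 2 / (1 + B') := ⟨_, rfl⟩
  have hδ₁0 : 0 < δ₁ := by rw [hδ₁]; positivity
  obtain ⟨δ, hδ⟩ : ∃ δ : ℝ, δ = min io δ₁ := ⟨_, rfl⟩
  have hδ0 : 0 < δ := by rw [hδ]; exact lt_min hio hδ₁0
  have hδio : δ ≤ io := by rw [hδ]; exact min_le_left _ _
  have hδδ : δ ≤ δ₁ := by rw [hδ]; exact min_le_right _ _
  obtain ⟨U, hU⟩ : ∃ U : ℕ, U = max (max U₀ 1) ⌈4 * A / δ⌉₊ := ⟨_, rfl⟩
  have hU0 : U₀ ≤ U := by rw [hU]; exact (le_max_left _ _).trans (le_max_left _ _)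
  have hU1 : 1 ≤ U := by rw [hU]; exact (le_max_right _ _).trans (le_max_left _ _)
  have hU2 : 4 * A / δ ≤ U := (Nat.le_ceil _).trans (by
    rw [hU]
    exact_mod_cast le_max_right _ _)
  obtain ⟨y, hyd⟩ : ∃ y : ℕ, y = max (max y₀ 1) (B * U + ⌈C / Real.log 2⌉₊) := ⟨_, rfl⟩
  have hy0 : y₀ ≤ y := by rw [hyd]; exact (le_max_left _ _).trans (le_max_left _ _)
  have hy1 : 1 ≤ y := by rw [hyd]; exact (le_max_right _ _).trans (le_max_left _ _)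
  have hy2 : B * U + ⌈C / Real.log 2⌉₊ ≤ y := by rw [hyd]; exact le_max_right _ _
  obtain ⟨r, r', r'', hStp⟩ := stp_ex gamn gam0 ggr y
  refine ⟨U, y, r, r', r'', y, r'' + y, r, hU1, hU0, hy0, fun M₀ => ?_⟩
  obtain ⟨m1, hm1⟩ := exists_nat_ge ((U : ℝ) / gam n)
  obtain ⟨M, hM⟩ : ∃ M : ℕ, M = M₀ + (r'' + y + B * U + r'' + r + r + U + m1 + 1 +
    B * U * r) := ⟨_, rfl⟩
  have hPlc : Plc n gam y r r' r'' y M (r'' + y) r := by
    refine ⟨hStp, hy1, by omega, by omega, ?_, le_rfl, ?_⟩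
    · rw [hM]
      omega
    · rw [hM]
      omega
  refine ⟨M, by rw [hM]; omega, hPlc, fun e he => ?_⟩
  obtain ⟨e₂, he₂⟩ : ∃ e₂ : ℝ, e₂ = min e (min (δ / (2 * (A + 1))) (1 / 2)) := ⟨_, rfl⟩
  have he₂0 : 0 < e₂ := by
    rw [he₂]
    exact lt_min he (lt_min (by positivity) (by norm_num))
  obtain ⟨κ₁, z₁, k1, HG2⟩ := HG y r r' r'' y M e₂ he₂0
  obtain ⟨κ₂, z₂, k2, HT2⟩ := HT n K K' M c k C₁ C
  refine ⟨min (min κ₁ κ₂) 1, max (max z₁ z₂) 1, lt_min (lt_min k1 k2) one_pos, min_le_right _ _,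
    ?_⟩
  intro J a₀ w₀ z D q ϖ hz hϖ hO hDM hLLC hTm hNF
  obtain ⟨κ, hκ⟩ : ∃ κ : ℝ, κ = min (min κ₁ κ₂) 1 := ⟨_, rfl⟩
  rw [← hκ] at hO hDM hTm
  have c1 : κ ≤ κ₁ := by rw [hκ]; exact (min_le_left _ _).trans (min_le_left _ _)
  have c2 : κ ≤ κ₂ := by rw [hκ]; exact (min_le_left _ _).trans (min_le_right _ _)
  have c3 : κ ≤ 1 := by rw [hκ]; exact min_le_right _ _
  have c4 : 0 < κ := by rw [hκ]; exact lt_min (lt_min k1 k2) one_pos
  have z1 : z₁ ≤ z := (le_max_left _ _).trans ((le_max_left _ _).trans hz)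
  have z2 : z₂ ≤ z := (le_max_right _ _).trans ((le_max_left _ _).trans hz)
  have z3 : 1 ≤ z := (le_max_right _ _).trans hz
  have hTmono : ∀ κ' : ℝ, κ ≤ κ' → D.TmU J w₀ z κ' q := by
    intro κ' h'
    unfold NDat2.TmU at hTm ⊢
    have : κ * z ≤ κ' * z := mul_le_mul_of_nonneg_right h' (Nat.cast_nonneg z)
    linarith
  obtain ⟨E, P, S, hE, hgd, hgeo, hdep⟩ := HG2 J a₀ w₀ z (r'' + y) r D q z1 hPlc
    (hO.mono_κ c1) (hTmono _ c1)
  have hBU1 : 1 ≤ B * U := Nat.one_le_iff_ne_zero.2 (by positivity)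
  have hX1 : z ≤ B * U * z := Nat.le_mul_of_pos_left z hBU1
  have hX2 : U * z ≤ B * U * z := Nat.mul_le_mul_right z (Nat.le_mul_of_pos_left U B1)
  obtain ⟨w, w1, w2, hTM⟩ := HT2 D J a₀ w₀ z (r'' + y) r r (B * U * z) lam gam κ q P S ys gs
    c2 z2 hX1 (Nat.mul_le_mul_right z (by rw [hM]; omega)) (by rw [hM]; omega) le_rfl
    (by rw [hM]; omega) hO hTm
  have hq := hO.isLaw
  have hb0 : 0 ≤ Pb q (fun ω => ¬ E ω) := Pool.MIC.Pb_nonneg hq.nonneg _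
  have hb1 : Pb q (fun ω => ¬ E ω) ≤ δ / (2 * (A + 1)) :=
    hE.trans (by rw [he₂]; exact (min_le_right _ _).trans (min_le_left _ _))
  have hb2 : Pb q (fun ω => ¬ E ω) ≤ 1 / 2 :=
    hE.trans (by rw [he₂]; exact (min_le_right _ _).trans (min_le_right _ _))
  have hyX : exp (C * z) * 2 ^ (B * U * z) ≤ (2 : ℝ) ^ (y * z) := by
    have e1 : exp (C * z) ≤ (2 : ℝ) ^ (⌈C / Real.log 2⌉₊ * z) := by
      have f1 : (2 : ℝ) ^ (⌈C / Real.log 2⌉₊ * z) =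
          exp (((⌈C / Real.log 2⌉₊ * z : ℕ) : ℝ) * Real.log 2) := by
        rw [← Real.rpow_natCast, Real.rpow_def_of_pos (by norm_num)]
        ring_nf
      rw [f1]
      refine Real.exp_le_exp.2 ?_
      have f2 := Nat.le_ceil (C / Real.log 2)
      rw [div_le_iff₀ hlog] at f2
      push_cast
      have := mul_le_mul_of_nonneg_right f2 (Nat.cast_nonneg (α := ℝ) z)
      nlinarith
    calc exp (C * z) * 2 ^ (B * U * z) ≤ (2 : ℝ) ^ (⌈C / Real.log 2⌉₊ * z) * 2 ^ (B * U * z) :=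
          mul_le_mul_of_nonneg_right e1 (by positivity)
      _ = (2 : ℝ) ^ ((B * U + ⌈C / Real.log 2⌉₊) * z) := by
          rw [← pow_add]
          congr 1
          ring
      _ ≤ 2 ^ (y * z) := pow_le_pow_right₀ (by norm_num) (Nat.mul_le_mul_right z hy2)
  have hHyp : Hyp D n K K' J a₀ w₀ z M w (r'' + y) r r r' r'' y (B * U * z) lam gam κ C₁ C q E P
      S ys gs := by
    refine
      { ok := hO
        dma := hDM
        llc := hLLC.mono hCL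
        tmu := hTm
        n1 := n1
        C1 := C1
        Cg := hC
        κ0 := c4.le
        z1 := z3
        lam1 := lam1
        gam0 := gam0
        i0 := by omega
        i1 := by omega
        i2 := by rw [hM]; omega
        j1 := le_rfl
        j2 := by rw [hM]; omega
        r1 := hStp.s5
        w1 := w1
        w2 := w2
        pE := ?_
        geo := hgeo.mono hCC (by positivity)
          (div_le_div_of_nonneg_right (exp_mz hCC z) (by positivity))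
        gd := fun ω hω => ⟨(hgd ω hω).1, (hgd ω hω).2.1.mono hCC, (hgd ω hω).2.2.mono hCC⟩
        dep := hdep.mono hCC
        yX := hyX
        Xz := ⟨B * U, rfl, by rw [hM]; omega⟩
        Xr := fun x hx => by
          have e1 : B * U = x := Nat.eq_of_mul_eq_mul_right (by omega) hx
          rw [← e1, hM]
          omega
        ys_sl := y1
        ys_in := y2
        ys_on := y3
        gs_gr := g1
        gs_in := g2
        gs_on := g3 }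
    have := Pool.MIC.Pb_not hq.sum_one E
    linarith
  have herr : ∀ A' : ℝ, A' ≤ A →
      err A' κ z (B * U * z) (Pb q (fun ω => ¬ E ω)) ≤ δ * (B * U * z : ℕ) := fun A' hA' =>
    (err_mono hA' c4.le hb0).trans (err_le hA0 hδ0 c3 hU2 hX2 hb1)
  have hX0 : (0 : ℝ) ≤ ((B * U * z : ℕ) : ℝ) := Nat.cast_nonneg _
  have hio' : ∀ A' : ℝ, A' ≤ A →
      err A' κ z (B * U * z) (Pb q (fun ω => ¬ E ω)) ≤ io * (B * U * z : ℕ) := fun A' hA' =>
    (herr A' hA').trans (mul_le_mul_of_nonneg_right hδio hX0)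
  refine ⟨w, E, P, S, hE.trans (by rw [he₂]; exact min_le_left _ _), ?_, hgeo, hgd, hdep, ?_, hTM⟩
  · rw [← hκ]
    exact hHyp
  have q0 := H0 D J a₀ w₀ z M w (r'' + y) r r r' r'' y (B * U * z) lam gam κ q E P S ys gs hHyp
  have q2 := H2 D J a₀ w₀ z M w (r'' + y) r r r' r'' y (B * U * z) lam gam κ q E P S ys gs hHyp
  have qy := Hy D J a₀ w₀ z M w (r'' + y) r r r' r'' y (B * U * z) lam gam κ q E P S ys gs hHyp
  have qt := Ht D J a₀ w₀ z M w (r'' + y) r r r' r'' y (B * U * z) lam gam κ q E P S ys gs hHyp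
  have qs := Hs D J a₀ w₀ z M w (r'' + y) r r r' r'' y (B * U * z) lam gam κ q E P S ys gs hHyp
    n₀ g4
  have hMj : (U : ℝ) ≤ gam n * (M - r) := by
    have e1 : (m1 : ℝ) ≤ M - r := by
      rw [hM]
      push_cast
      have : (0 : ℝ) ≤ M₀ + (r'' + y + B * U + r'' + r + U + 1 + B * U * r) := by positivity
      linarith
    rw [div_le_iff₀ gamn] at hm1
    have := mul_le_mul_of_nonneg_left e1 gamn.le
    linarith
  have qn := Hn D J a₀ w₀ z M w (r'' + y) r r r' r'' y U lam gam κ h ϖ q E P S ys gs n₀ hHyp hNF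
    hh0 hh1 hϖ g4 (by rw [hM]; omega) hMj
  refine pic_ok hq (by omega) (c1 := h / B) (E0 := err An κ z (B * U * z) (Pb q (fun ω => ¬ E ω)))
    (E1 := err As κ z (B * U * z) (Pb q (fun ω => ¬ E ω)))
    (q0.trans (add_le_add le_rfl (hio' _ l0))) (q2.trans (add_le_add le_rfl (hio' _ l2)))
    (qy.trans (add_le_add le_rfl (hio' _ ly))) (qt.trans (add_le_add le_rfl (hio' _ lt))) qn qs ?_
  have e1 := herr _ ln
  have e2 := herr _ ls
  have hB'0 : (0 : ℝ) ≤ B' := Nat.cast_nonneg _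
  have e3 := mul_le_mul_of_nonneg_left e2 hB'0
  have e4 : (1 + (B' : ℝ)) * δ ≤ h / (2 * B) * Real.log 2 := by
    have := mul_le_mul_of_nonneg_left hδδ (by positivity : (0 : ℝ) ≤ 1 + B')
    rw [hδ₁] at this
    rwa [mul_div_assoc', mul_div_cancel_left₀ _ (by positivity)] at this
  have e5 : (h / B - h / (2 * B)) = h / (2 * B) := by
    field_simp
    ring
  rw [e5]
  have e6 := mul_le_mul_of_nonneg_right e4 hX0
  nlinarith

end Pool.P4
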