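import Pool.Agent.H66.P4.Pic

/-!
# P4: the steps of the cell
-/

set_option autoImplicit false

namespace Pool.P4

open Finset Real

theorem thd_pos {n : ℕ} {gam : ℕ → ℝ} (h : 0 < gam n) : 0 < thd gam n :=
  lt_min h one_pos

/-- The slopes below the threshold. -/
theorem rho_ex {n : ℕ} {gam : ℕ → ℝ} (hn : 0 < gam n) (hg : ∀ l, gr gam n l → gam l < 1 + thd gam n) :
    ∃ ρ : ℝ, 0 ≤ ρ ∧ ρ < thd gam n ∧ (∀ l, sl gam n l → gam l ≤ ρ) ∧
      ∀ l, gr gam n l → gam l - 1 ≤ ρ := by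
  classical
  have ht := thd_pos hn
  obtain ⟨f, hf⟩ : ∃ f : ℕ → ℝ, f = fun l => if sl gam n l then gam l else
    if gr gam n l then gam l - 1 else 0 := ⟨_, rfl⟩
  have hlt : ∀ l, f l < thd gam n := by
    intro l
    rw [hf]
    beta_reduce
    split_ifs with h1 h2
    · exact h1.2.2
    · linarith [hg l h2]
    · exact ht
  obtain ⟨l₀, -, hl₀⟩ := Finset.exists_max_image (range (n + 1)) f ⟨0, by simp⟩
  refine ⟨max 0 (f l₀), le_max_left _ _, max_lt ht (hlt l₀), fun l hl => ?_, fun l hl => ?_⟩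
  · have h1 := hl₀ l (mem_range.2 (by have := hl.2.1; omega))
    have h2 : f l = gam l := by
      rw [hf]
      exact if_pos hl
    rw [h2] at h1
    exact h1.trans (le_max_right _ _)
  · have h1 := hl₀ l (mem_range.2 (by have := hl.2.1; omega))
    have h3 : ¬ sl gam n l := fun h => by
      have h4 := h.2.2
      have h5 := hl.2.2
      linarith
    have h2 : f l = gam l - 1 := by
      rw [hf]
      beta_reduce
      rw [if_neg h3, if_pos hl]
    rw [h2] at h1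
    exact h1.trans (le_max_right _ _)

/-- **The steps exist.** -/
theorem stp_ex {n : ℕ} {gam : ℕ → ℝ} (hn : 0 < gam n) (h0 : ∀ l, 0 ≤ gam l)
    (hg : ∀ l, gr gam n l → gam l < 1 + thd gam n) (y : ℕ) :
    ∃ r r' r'' : ℕ, Stp n gam y r r' r'' y := by
  obtain ⟨ρ, r0, r1, r2, r3⟩ := rho_ex hn hg
  obtain ⟨G, hG⟩ : ∃ G : ℝ, ∀ l ≤ n, gam l ≤ G := by
    refine ⟨∑ l ∈ range (n + 1), gam l, fun l hl => ?_⟩
    exact Finset.single_le_sum (f := gam) (fun k _ => h0 k) (mem_range.2 (by omega))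
  obtain ⟨r, hr⟩ := exists_nat_ge ((2 * y + 2) / (thd gam n - ρ))
  have hd : 0 < thd gam n - ρ := by linarith
  rw [div_le_iff₀ hd] at hr
  have ht1 : thd gam n ≤ 1 := min_le_right _ _
  have hrr : (0 : ℝ) ≤ r := Nat.cast_nonneg r
  have hρr : 0 ≤ ρ * r := by positivity
  have e1 := Nat.le_ceil (ρ * r)
  have e2 := Nat.ceil_lt_add_one hρr
  obtain ⟨r', hr'⟩ : ∃ r' : ℕ, r' = ⌈ρ * r⌉₊ + y := ⟨_, rfl⟩
  have e3 : (r' : ℝ) = ⌈ρ * r⌉₊ + y := by rw [hr']; push_cast; ring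
  have k1 : ρ * r + y ≤ r' := by rw [e3]; linarith
  have k2 : (r' : ℝ) + y ≤ thd gam n * r := by
    rw [e3]
    nlinarith
  have k3 : thd gam n * r ≤ r := by nlinarith
  obtain ⟨r'', hr''⟩ : ∃ r'' : ℕ, r'' = ⌈2 * G * r⌉₊ + y + r' := ⟨_, rfl⟩
  have e4 := Nat.le_ceil (2 * G * r)
  have e5 : (r'' : ℝ) = ⌈2 * G * r⌉₊ + y + r' := by rw [hr'']; push_cast; ring
  have hr'0 : (0 : ℝ) ≤ r' := Nat.cast_nonneg r'
  refine ⟨r, r', r'', ⟨?_, ?_, ?_, ?_, ?_, ?_, le_rfl⟩⟩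
  · intro l hl
    have := mul_le_mul_of_nonneg_right (r2 l hl) hrr
    linarith
  · intro l hl
    have := mul_le_mul_of_nonneg_right hl.2.2 hrr
    linarith
  · have : ((r' + y : ℕ) : ℝ) ≤ r := by
      push_cast
      linarith
    exact_mod_cast this
  · intro l hl
    have := mul_le_mul_of_nonneg_right (r3 l hl) hrr
    linarith
  · intro l _ hl
    have := mul_le_mul_of_nonneg_right (hG l hl) hrr
    rw [e5]
    linarith
  · rw [hr'']
    omega

end Pool.P4
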