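import Pool.Agent.H14.P4.Cell
import Pool.Agent.H98.QW.NfbH

/-!
# P4: the picture satisfies the hypotheses of QUAD
-/

set_option autoImplicit false

namespace Pool.P4

open Finset Real MvPolynomial
open Pool.Agent.H49.Ent Pool.Agent.H32.Dense Pool.STK Pool.STAT Pool.MIC.Frm Pool.MIC7 Pool.FRM
open Pool.GSD
open Pool.BFL (Pb)
open Pool.QC (nfb)

/-! ### Bounds -/

theorem cl1_bd (x : ℝ) : -1 ≤ cl1 x ∧ cl1 x ≤ 1 := by
  unfold cl1
  exact ⟨le_max_left _ _, max_le (by norm_num) (min_le_left _ _)⟩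

theorem dg_bd (X : ℕ) (x : ℝ) : |(dg X x : ℝ)| ≤ 2 ^ X := by
  obtain ⟨h1, h2⟩ := cl1_bd x
  have h3 : (0 : ℝ) < 2 ^ X := by positivity
  have h4 : -(2 : ℤ) ^ X ≤ dg X x := by
    unfold dg
    rw [Int.le_floor]
    push_cast
    nlinarith
  have h5 : (dg X x : ℝ) ≤ 2 ^ X := by
    refine (Int.floor_le _).trans ?_
    nlinarith
  have h6 : (-(2 : ℝ) ^ X) ≤ dg X x := by exact_mod_cast h4
  rw [abs_le]
  exact ⟨h6, h5⟩

theorem dgp_bd (X : ℕ) (x : ℝ) : 0 ≤ dgp X x ∧ dgp X x < 2 ^ X := by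
  unfold dgp
  refine ⟨le_max_left _ _, max_lt (by positivity) ?_⟩
  exact (min_le_left _ _).trans_lt (by linarith)

theorem tq_lt (J w X T : ℕ) : tq J w X T < 2 ^ X := by
  unfold tq
  have h1 : T % 2 ^ (J - w) < 2 ^ (J - w) := Nat.mod_lt _ (by positivity)
  rw [Nat.div_lt_iff_lt_mul (by positivity), ← pow_add]
  exact h1.trans_le (Nat.pow_le_pow_right (by norm_num) (by omega))

theorem div_bd {X : ℕ} {a : ℤ} (h : |(a : ℝ)| ≤ 2 ^ X) : |(a : ℝ) / 2 ^ X| ≤ 1 := by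
  rw [abs_div, abs_of_pos (show (0 : ℝ) < 2 ^ X by positivity), div_le_one (by positivity)]
  exact h

section

variable {c k : ℕ} {D : NDat2} {n K K' J a₀ w₀ z M w i j r r' r'' y X : ℕ} {lam gam : ℕ → ℝ}
  {κ C₁ C : ℝ} {q : D.Ω → ℝ} {E : D.Ω → Prop} {P : D.Γ × D.Γ → ℕ → PN} {S : D.Ω → ℕ → ℕ → ℝ}
  {ys : Fin k → ℕ} {gs : Fin c → ℕ}

/-- The displacement is bounded. -/
theorem qh_g_bd (ω : D.Ω) (u : Fin c) :
    |((qh (c := c) (k := k) D J w z i j r X C P S ys gs q).g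
      ((qh (c := c) (k := k) D J w z i j r X C P S ys gs q).th ω)
      ((qh (c := c) (k := k) D J w z i j r X C P S ys gs q).v ω) u : ℝ)| ≤ (k + 3) * 2 ^ X := by
  have hX : (1 : ℝ) ≤ 2 ^ X := one_le_pow₀ (by norm_num)
  change |((⌊(tq J w X (D.T ω) : ℝ) * ((bev D J w z i j r X C P gs ω u : ℝ) / 2 ^ X) -
      ∑ a, (Sv D z X C S ys gs ω u a : ℝ) / 2 ^ X * yv D J w z i j r X C P ys ω a +
      ∑ a, (Sv D z X C S ys gs ω u a : ℝ) / 2⌋ : ℤ) : ℝ)| ≤ _
  set R : ℝ := (tq J w X (D.T ω) : ℝ) * ((bev D J w z i j r X C P gs ω u : ℝ) / 2 ^ X) -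
      ∑ a, (Sv D z X C S ys gs ω u a : ℝ) / 2 ^ X * yv D J w z i j r X C P ys ω a +
      ∑ a, (Sv D z X C S ys gs ω u a : ℝ) / 2 with hR
  have h1 : |(tq J w X (D.T ω) : ℝ) * ((bev D J w z i j r X C P gs ω u : ℝ) / 2 ^ X)| ≤ 2 ^ X := by
    rw [abs_mul, abs_of_nonneg (Nat.cast_nonneg _)]
    have e1 : (tq J w X (D.T ω) : ℝ) ≤ 2 ^ X := by exact_mod_cast (tq_lt J w X (D.T ω)).le
    have e2 : |(bev D J w z i j r X C P gs ω u : ℝ) / 2 ^ X| ≤ 1 := div_bd (dg_bd _ _)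
    calc (tq J w X (D.T ω) : ℝ) * |(bev D J w z i j r X C P gs ω u : ℝ) / 2 ^ X|
        ≤ 2 ^ X * 1 := mul_le_mul e1 e2 (abs_nonneg _) (by positivity)
      _ = 2 ^ X := mul_one _
  have h2 : |∑ a, (Sv D z X C S ys gs ω u a : ℝ) / 2 ^ X *
      ((2 : ℝ) ^ X / 2 - yv D J w z i j r X C P ys ω a)| ≤ k * 2 ^ X := by
    refine (Finset.abs_sum_le_sum_abs _ _).trans ?_
    have : ∀ a ∈ (univ : Finset (Fin k)), |(Sv D z X C S ys gs ω u a : ℝ) / 2 ^ X *
        ((2 : ℝ) ^ X / 2 - yv D J w z i j r X C P ys ω a)| ≤ 2 ^ X := by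
      intro a _
      rw [abs_mul]
      have e1 : |(Sv D z X C S ys gs ω u a : ℝ) / 2 ^ X| ≤ 1 := div_bd (dg_bd _ _)
      obtain ⟨e2, e3⟩ := dgp_bd X ((z0 D J w i j r P ω (ys a) + Ry z C) / (2 * Ry z C))
      have e4 : |(2 : ℝ) ^ X / 2 - (yv D J w z i j r X C P ys ω a : ℝ)| ≤ 2 ^ X := by
        have f2 : (0 : ℝ) ≤ (yv D J w z i j r X C P ys ω a : ℝ) := by exact_mod_cast e2
        have f3 : (yv D J w z i j r X C P ys ω a : ℝ) ≤ 2 ^ X := by exact_mod_cast e3.le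
        rw [abs_le]
        constructor <;> linarith
      calc _ ≤ 1 * (2 : ℝ) ^ X := mul_le_mul e1 e4 (abs_nonneg _) zero_le_one
        _ = 2 ^ X := one_mul _
    refine (Finset.sum_le_sum this).trans (le_of_eq ?_)
    rw [Finset.sum_const, nsmul_eq_mul, Finset.card_univ, Fintype.card_fin]
  have h4 : R = (tq J w X (D.T ω) : ℝ) * ((bev D J w z i j r X C P gs ω u : ℝ) / 2 ^ X) +
      ∑ a, (Sv D z X C S ys gs ω u a : ℝ) / 2 ^ X *
        ((2 : ℝ) ^ X / 2 - yv D J w z i j r X C P ys ω a) := by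
    have e1 : ∑ a, (Sv D z X C S ys gs ω u a : ℝ) / 2 ^ X *
        ((2 : ℝ) ^ X / 2 - yv D J w z i j r X C P ys ω a) =
        ∑ a, (Sv D z X C S ys gs ω u a : ℝ) / 2 -
          ∑ a, (Sv D z X C S ys gs ω u a : ℝ) / 2 ^ X * yv D J w z i j r X C P ys ω a := by
      rw [← Finset.sum_sub_distrib]
      refine Finset.sum_congr rfl fun a _ => ?_
      field_simp
    rw [e1, hR]
    ring
  have h5 := abs_add_le ((tq J w X (D.T ω) : ℝ) * ((bev D J w z i j r X C P gs ω u : ℝ) / 2 ^ X))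
    (∑ a, (Sv D z X C S ys gs ω u a : ℝ) / 2 ^ X *
        ((2 : ℝ) ^ X / 2 - yv D J w z i j r X C P ys ω a))
  rw [← h4] at h5
  have h6 := Int.floor_le R
  have h7 := Int.lt_floor_add_one R
  have h8 := abs_le.1 (h5.trans (add_le_add h1 h2))
  have hk : (0 : ℝ) ≤ k := Nat.cast_nonneg k
  rw [abs_le]
  constructor <;> nlinarith

/-- **The picture satisfies the hypotheses of QUAD.** -/
theorem pic_ok (hq : IsLaw q) {n₀ : Fin c} {B' : ℕ} (hB' : 0 < B') {c0 c1 d E0 E1 : ℝ}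
    (h0 : CH q (qh (c := c) (k := k) D J w z i j r X C P S ys gs q).th
      (qh (c := c) (k := k) D J w z i j r X C P S ys gs q).b ≤
      CH q (qh (c := c) (k := k) D J w z i j r X C P S ys gs q).th
        (qh (c := c) (k := k) D J w z i j r X C P S ys gs q).line + d)
    (h2 : CH q (qh (c := c) (k := k) D J w z i j r X C P S ys gs q).hgt
        (fun ω => ((qh (c := c) (k := k) D J w z i j r X C P S ys gs q).th ω,
          (qh (c := c) (k := k) D J w z i j r X C P S ys gs q).b ω)) ≤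
      CH q (qh (c := c) (k := k) D J w z i j r X C P S ys gs q).hgt
        (fun ω => ((qh (c := c) (k := k) D J w z i j r X C P S ys gs q).v ω,
          ((qh (c := c) (k := k) D J w z i j r X C P S ys gs q).th ω,
            (qh (c := c) (k := k) D J w z i j r X C P S ys gs q).b ω))) + d)
    (hy : k * X * Real.log 2 ≤
      CH q (yv (k := k) D J w z i j r X C P ys) (cb D J w i j r) + d)
    (ht : X * Real.log 2 ≤ CH q (fun ω => tq J w X (D.T ω)) (cb D J w i j r) + d)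
    (hnf : CH q (fun ω => nuv D J w z i j r X C P gs ω n₀)
        (fun ω => ((fun u : {u : Fin c // u ≠ n₀} => nuv D J w z i j r X C P gs ω u),
          (vv D J w z i j r X C P ys gs ω,
            (tv D J w z i j r X C S ys gs ω, cb D J w i j r ω)))) ≤
        (1 - c1) * X * Real.log 2 + E0)
    (hhs : ∀ x ≤ X, ((c : ℝ) - 1) * (((X : ℝ) - x) * Real.log 2) - E1 ≤
      CH q (fun ω (u : {u : Fin c // u ≠ n₀}) => nuv D J w z i j r X C P gs ω u)
        (fun ω => ((fun u => nuv D J w z i j r X C P gs ω u / 2 ^ (X - x)),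
          (vv D J w z i j r X C P ys gs ω, (tv D J w z i j r X C S ys gs ω, cb D J w i j r ω)))))
    (hE : E0 + B' * E1 ≤ (c1 - c0) * X * Real.log 2) :
    (qh (c := c) (k := k) D J w z i j r X C P S ys gs q).Ok0S n₀ X B' (k + 4) c0 d := by
  have hX : (1 : ℝ) ≤ 2 ^ X := one_le_pow₀ (by norm_num)
  have hk : (0 : ℝ) ≤ k := Nat.cast_nonneg k
  refine
    { law := hq
      tau_r := ?_
      y_r := ?_
      E_b := ?_
      be_b := ?_
      hgt_b := ?_
      g_eq := ?_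
      h0 := sub_le_iff_le_add'.2 h0
      h2 := sub_le_iff_le_add'.2 h2
      y_f := ?_
      t_f := ?_
      nf := ?_ }
  · intro ω
    change 0 ≤ ((tq J w X (D.T ω) : ℕ) : ℤ) ∧ ((tq J w X (D.T ω) : ℕ) : ℤ) < 2 ^ X
    exact ⟨Int.natCast_nonneg _, by exact_mod_cast tq_lt J w X (D.T ω)⟩
  · intro ω a
    exact dgp_bd X _
  · intro ω a u
    change |(Sv D z X C S ys gs ω u a : ℝ) / 2 ^ X| ≤ k + 4
    have := div_bd (X := X) (a := Sv D z X C S ys gs ω u a) (dg_bd _ _)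
    linarith
  · intro ω u
    change |(bev D J w z i j r X C P gs ω u : ℝ) / 2 ^ X| ≤ k + 4
    have := div_bd (X := X) (a := bev D J w z i j r X C P gs ω u) (dg_bd _ _)
    linarith
  · intro ω u
    have e1 := qh_g_bd (c := c) (k := k) (D := D) (J := J) (w := w) (z := z) (i := i) (j := j)
      (r := r) (X := X) (C := C) (P := P) (S := S) (ys := ys) (gs := gs) (q := q) ω u
    have e2 : |(nuv D J w z i j r X C P gs ω u : ℝ)| ≤ 2 ^ X := dg_bd _ _
    have e3 : (((qh (c := c) (k := k) D J w z i j r X C P S ys gs q).hgt ω u : ℤ) : ℝ) =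
      (nuv D J w z i j r X C P gs ω u : ℝ) +
        ((qh (c := c) (k := k) D J w z i j r X C P S ys gs q).g
          ((qh (c := c) (k := k) D J w z i j r X C P S ys gs q).th ω)
          ((qh (c := c) (k := k) D J w z i j r X C P S ys gs q).v ω) u : ℝ) := by
      rw [← Int.cast_add]
      rfl
    rw [e3]
    refine (abs_add_le _ _).trans ?_
    linarith
  · intro ω ω' u
    change |((⌊(tq J w X (D.T ω) : ℝ) * ((bev D J w z i j r X C P gs ω' u : ℝ) / 2 ^ X) -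
      ∑ a, (Sv D z X C S ys gs ω u a : ℝ) / 2 ^ X * yv D J w z i j r X C P ys ω' a +
      ∑ a, (Sv D z X C S ys gs ω u a : ℝ) / 2⌋ : ℤ) : ℝ) -
      ((((tq J w X (D.T ω) : ℕ) : ℤ) : ℝ) * ((bev D J w z i j r X C P gs ω' u : ℝ) / 2 ^ X) -
      ∑ a, (Sv D z X C S ys gs ω u a : ℝ) / 2 ^ X * yv D J w z i j r X C P ys ω' a +
      ∑ a, (Sv D z X C S ys gs ω u a : ℝ) / 2 + 0)| ≤ k + 4
    rw [Int.cast_natCast, add_zero]
    set R : ℝ := (tq J w X (D.T ω) : ℝ) * ((bev D J w z i j r X C P gs ω' u : ℝ) / 2 ^ X) -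
      ∑ a, (Sv D z X C S ys gs ω u a : ℝ) / 2 ^ X * yv D J w z i j r X C P ys ω' a +
      ∑ a, (Sv D z X C S ys gs ω u a : ℝ) / 2
    have h6 := Int.floor_le R
    have h7 := Int.lt_floor_add_one R
    rw [abs_le]
    constructor <;> linarith
  · change k * X * Real.log 2 - d ≤ CH q (yv (k := k) D J w z i j r X C P ys) (cb D J w i j r)
    linarith
  · change X * Real.log 2 - d ≤ CH q (fun ω => ((tq J w X (D.T ω) : ℕ) : ℤ)) (cb D J w i j r)
    have e1 : CH q (fun ω => tq J w X (D.T ω)) (cb D J w i j r) ≤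
        CH q (fun ω => ((tq J w X (D.T ω) : ℕ) : ℤ)) (cb D J w i j r) := by
      refine CH_mono_left hq.nonneg fun ω ω' _ _ h => ?_
      simp only [Prod.mk.injEq] at h
      exact_mod_cast h.1
    linarith
  · have e1 := Pool.QC98.nfb_of_hs hq (nuv D J w z i j r X C P gs)
      (fun ω => (vv D J w z i j r X C P ys gs ω,
        (tv D J w z i j r X C S ys gs ω, cb D J w i j r ω))) n₀ hB' hhs
    change nfb q (nuv D J w z i j r X C P gs) (fun ω => (vv D J w z i j r X C P ys gs ω,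
        (tv D J w z i j r X C S ys gs ω, cb D J w i j r ω))) n₀ X B' ≤ _
    refine e1.trans ?_
    linarith

end

end Pool.P4
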